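import Pool.Agent.Helper15.LP.Defs
import Pool.Agent.Helper58.LR.R11

set_option autoImplicit false

/-! FINB: final form of the upper bound. -/

open Finset Filter
open scoped Classical Topology

namespace Pool.Agent.Helper15.LP

open Pool.Agent.Helper15.LR

theorem lp_FINB (hM : MainGen_stmt) : BoundP_stmt := by
  obtain ⟨C, hC, hM⟩ := hM
  refine ⟨C, ?_⟩
  intro V _ _ G _ hn L hL
  refine lists_of_LC G L (hM V G.edgeSet (G.maxDegree : ℝ) _ hn ?_ ?_ ?_)
  · intro v hv
    exact G.loopless.irrefl v (G.mem_edgeSet.mp hv)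
  · intro v
    rw [R11_dg]
    exact_mod_cast G.degree_le_maxDegree v
  · intro e he
    rw [dif_pos he]
    exact hL ⟨e, he⟩

end Pool.Agent.Helper15.LP
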